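import Mathlib

set_option autoImplicit false

namespace Pool.Agent.H.MP_2e37b9_an

open Set Filter Topology Cardinal Submodule TopologicalSpace

theorem big {T : Set ℝ} (h : T ∈ residual ℝ) : 𝔠 ≤ #T := by
  by_contra! c
  have s : Function.Surjective fun p : T × T => p.1.1 - p.2.1 := fun r => by
    obtain ⟨t, a, b⟩ := (dense_of_mem_residual (inter_mem h (mem_map.1 ((Homeomorph.addLeft r).residual_map_eq.symm ▸ h)))).nonempty
    exact ⟨(⟨_, b⟩, ⟨t, a⟩), by simp⟩
  have := mk_le_of_surjective s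
  rw [mk_real, mk_prod, lift_id] at this
  exact (mul_lt_of_lt aleph0_le_continuum c c).not_ge this

variable {X : Type} [AddCommGroup X] [Module ℂ X] [TopologicalSpace X] [IsTopologicalAddGroup X] [BaireSpace X]

theorem step {ι : Type} [Countable ι] (A : ι → Submodule ℂ X) {y : ℝ → X} (hy : Continuous y)
    (li : ∀ j, LinearIndependent ℂ fun t => (A j).mkQ (y t)) {U : ℕ → Set X} (o : ∀ n, IsOpen (U n))
    (d : ∀ n, Dense (U n)) {s : Set X} (hs : #s < 𝔠) :
    ∃ x, (∀ n, x ∈ U n) ∧ ∀ j, (A j).mkQ x ∉ span ℂ ((A j).mkQ '' s) := by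
  obtain ⟨x, hx⟩ := (dense_iInter_of_isOpen (f := fun p : ℕ × {p : ℚ × ℚ // p.1 < p.2} =>
    ⋃ t ∈ Ioo (p.2.1.1 : ℝ) p.2.1.2, (· + y t) ⁻¹' U p.1)
      (fun p => isOpen_biUnion fun t _ => (o _).preimage (by fun_prop)) fun p => by
        obtain ⟨t, ht⟩ := nonempty_Ioo.2 (show (p.2.1.1 : ℝ) < p.2.1.2 by exact_mod_cast p.2.2)
        exact ((d _).preimage (Homeomorph.addRight (y t)).isOpenMap).mono (subset_biUnion_of_mem
          (u := fun t => (· + y t) ⁻¹' U p.1) ht)).nonempty
  have r := big (T := ⋂ n, (x + y ·) ⁻¹' U n) (countable_iInter_mem.2 fun n => residual_of_dense_open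
    ((o n).preimage (by fun_prop)) (dense_of_exists_between fun a b ab => by
      obtain ⟨p, q, h1, h2, h3⟩ : ∃ p q : ℚ, a < p ∧ p < q ∧ q < b := by
        obtain ⟨p, h1, h⟩ := exists_rat_btwn ab
        obtain ⟨q, h2, h3⟩ := exists_rat_btwn h
        exact ⟨p, q, h1, mod_cast h2, h3⟩
      obtain ⟨t, ht, k⟩ := mem_iUnion₂.1 (mem_iInter.1 hx (n, ⟨(p, q), h2⟩))
      exact ⟨t, k, h1.trans ht.1, ht.2.trans h3⟩))
  by_contra! c
  refine (r.trans ((mk_le_mk_of_subset (t := ⋃ j, {t | (A j).mkQ (y t) ∈ span ℂ ((A j).mkQ '' insert x s)})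
    fun t ht => ?_).trans ((mk_iUnion_le_sum_mk).trans ((sum_le_sum _ (fun _ => #s + 1) fun j => ?_).trans_eq
      (sum_const' _ _))))).not_gt (mul_lt_of_lt aleph0_le_continuum (mk_le_aleph0.trans_lt aleph0_lt_continuum)
        (add_lt_of_lt aleph0_le_continuum hs (one_lt_aleph0.trans aleph0_lt_continuum)))
  · obtain ⟨j, hj⟩ := c (x + y t) fun n => mem_iInter.1 ht n
    refine mem_iUnion.2 ⟨j, ?_⟩
    have := sub_mem (span_mono (image_mono (subset_insert x s)) hj) (subset_span (mem_image_of_mem _ (mem_insert x s)))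
    rwa [← map_sub, add_sub_cancel_left] at this
  refine (LinearIndependent.cardinal_le_rank (R := ℂ) (v := fun t : {t | (A j).mkQ (y t) ∈
    span ℂ ((A j).mkQ '' insert x s)} => (⟨_, t.2⟩ : span ℂ _)) (.of_comp (Submodule.subtype _)
      ((li j).comp _ Subtype.val_injective))).trans ((rank_span_le _).trans (mk_image_le.trans mk_insert_le))

theorem li_of {K V : Type} [LinearOrder K] [AddCommGroup V] [Module ℂ V] {v : K → V}
    (h : ∀ i, v i ∉ span ℂ (v '' Iio i)) : LinearIndependent ℂ v := by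
  classical
  refine linearIndependent_iff_finset_linearIndependent.2 fun s => ?_
  induction s using Finset.induction_on_max with
  | empty => exact linearIndependent_empty_type
  | insert a s ha ih =>
    have : LinearIndepOn ℂ v (insert a s) :=
      LinearIndepOn.insert ih fun k => h a (span_mono (image_mono ha) k)
    rw [← Finset.coe_insert] at this
    exact this

theorem exE [SecondCountableTopology X] {ι : Type} [Countable ι] (A : ι → Submodule ℂ X) {y : ℝ → X}
    (hy : Continuous y) (l : ∀ j (s : Finset ℝ) (c : ℝ → ℂ), ∑ t ∈ s, c t • y t ∈ A j → ∀ i ∈ s, c i = 0) :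
    ∃ E : Submodule ℂ X, (∀ j, Disjoint E (A j)) ∧
      ∀ U : ℕ → Set X, (∀ n, IsOpen (U n)) → (∀ n, Dense (U n)) → ∃ x ∈ E, ∀ n, x ∈ U n := by
  have li : ∀ j, LinearIndependent ℂ fun t => (A j).mkQ (y t) := fun j => linearIndependent_iff'.2 fun s c h =>
    l j s c (by rw [← Submodule.Quotient.mk_eq_zero, ← mkQ_apply, map_sum]; simpa using h)
  obtain ⟨τ, hτ⟩ : ∃ τ : (ord 𝔠).ToType → ℕ → {U : Set X // IsOpen U ∧ Dense U}, τ.Surjective := by
    have : Nonempty {U : Set X // IsOpen U ∧ Dense U} := ⟨⟨_, isOpen_univ, dense_univ⟩⟩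
    have c : #{U : Set X // IsOpen U ∧ Dense U} ≤ 𝔠 := (mk_le_of_injective (f := fun U =>
      {b : countableBasis X | b.1 ⊆ U.1}) fun U V e => Subtype.ext <| by
        rw [(isBasis_countableBasis X).open_eq_sUnion' U.2.1, (isBasis_countableBasis X).open_eq_sUnion' V.2.1]
        congr 1
        ext b
        exact and_congr_right fun hb => Set.ext_iff.1 e ⟨b, hb⟩).trans (by
          rw [mk_set, ← two_power_aleph0]
          exact power_le_power_left two_ne_zero mk_le_aleph0)
    obtain ⟨f⟩ : Nonempty ((ℕ → {U : Set X // IsOpen U ∧ Dense U}) ↪ (ord 𝔠).ToType) := by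
      rw [← Cardinal.le_def, mk_ord_toType, ← power_def, mk_nat, ← continuum_power_aleph0]
      exact power_le_power_right c
    exact ⟨_, Function.invFun_surjective f.2⟩
  choose c c1 c2 using fun i (f : ∀ k, k < i → X) => step A hy li (fun n => (τ i n).2.1) (fun n => (τ i n).2.2)
    (s := range fun k : Iio i => f k k.2) (mk_range_le.trans_lt (mk_Iio_toType_ord_lt i))
  let x := wellFounded_lt.fix c
  have e : ∀ i, x i = c i fun k _ => x k := wellFounded_lt.fix_eq c
  refine ⟨span ℂ (range x), fun j => ?_, fun U o d => ?_⟩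
  · have := li_of (v := (A j).mkQ ∘ x) fun i => by
      have := c2 i (fun k _ => x k) j
      rwa [← e, ← image_eq_range x (Iio i), ← image_comp] at this
    simpa using range_ker_disjoint this
  obtain ⟨i, hi⟩ := hτ fun n => ⟨U n, o n, d n⟩
  exact ⟨x i, subset_span ⟨i, rfl⟩, fun n => by simpa [hi, ← e] using c1 i (fun k _ => x k) n⟩

theorem baire [SecondCountableTopology X] [ContinuousSMul ℂ X] {E : Submodule ℂ X}
    (h : ∀ U : ℕ → Set X, (∀ n, IsOpen (U n)) → (∀ n, Dense (U n)) → ∃ x ∈ E, ∀ n, x ∈ U n) :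
    Dense (E : Set X) ∧ BaireSpace E := by
  have d : Dense (E : Set X) := by
    by_contra c
    obtain ⟨x, a, b⟩ := h (fun _ => (closure E)ᶜ) (fun _ => isClosed_closure.isOpen_compl) fun _ =>
      interior_eq_empty_iff_dense_compl.1 (not_nonempty_iff_eq_empty.1 fun k =>
        c (dense_iff_topologicalClosure_eq_top.2 (E.topologicalClosure.eq_top_of_nonempty_interior' k)))
    exact b 0 (subset_closure a)
  refine ⟨d, ⟨fun f o df => dense_iff_inter_open.2 fun V oV ⟨v, hv⟩ => ?_⟩⟩
  choose W W1 W2 using fun n => isOpen_induced_iff.1 (o n)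
  obtain ⟨V, oW, rfl⟩ := isOpen_induced_iff.1 oV
  have : SecondCountableTopology E := IsInducing.subtypeVal.secondCountableTopology
  obtain ⟨e, he⟩ := exists_dense_seq E
  obtain ⟨x, a, b⟩ := h (fun n => (· - (e n.unpair.1 : X)) ⁻¹' W n.unpair.2) (fun n => (W1 _).preimage (by fun_prop))
    fun n => ((d.denseRange_val.dense_image continuous_subtype_val (df _)).mono
      (image_subset_iff.2 (W2 _).ge)).preimage (Homeomorph.subRight _).isOpenMap
  obtain ⟨k, hk⟩ := he.exists_mem_open
    (s := (fun u : E => x - u) ⁻¹' V) (oW.preimage (continuous_const.sub continuous_subtype_val))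
    ⟨⟨x, a⟩ - v, by simpa using hv⟩
  exact ⟨⟨x, a⟩ - e k, hk, mem_iInter.2 fun n => W2 n ▸ by simpa using b (k.pair n)⟩

end Pool.Agent.H.MP_2e37b9_an
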