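import Mathlib
import Pool.Agent.H.MP_2e37b9_an.A

set_option autoImplicit false

namespace Pool.Agent.H.MP_2e37b9_an

open Set Filter Topology Metric Submodule TopologicalSpace Complex

variable {G : Set ℂ}

open Classical in
/-- extension by zero -/
noncomputable def ext (G : Set ℂ) : C(closure G, ℂ) →ₗ[ℂ] (ℂ → ℂ) where
  toFun φ z := if h : z ∈ closure G then φ ⟨z, h⟩ else 0
  map_add' φ ψ := by ext z; by_cases h : z ∈ closure G <;> simp [h]
  map_smul' c φ := by ext z; by_cases h : z ∈ closure G <;> simp [h]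

theorem ext_eq (φ : C(closure G, ℂ)) {z : ℂ} (h : z ∈ closure G) : ext G φ z = φ ⟨z, h⟩ := dif_pos h

theorem ev (hG : IsOpen G) {z : ℂ} (hz : z ∈ G) {φ : C(closure G, ℂ)} {f : ℂ → ℂ}
    (h : ∀ z (hz : z ∈ G), φ ⟨z, subset_closure hz⟩ = f z) : ext G φ =ᶠ[𝓝 z] f :=
  mem_of_superset (hG.mem_nhds hz) fun u hu => (ext_eq φ _).trans (h u hu)

/-- successive derivatives -/
def P (F : ℕ → C(closure G, ℂ)) : Prop := ∀ j, ∀ z ∈ G, HasDerivAt (ext G (F j)) (ext G (F (j + 1)) z) z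

theorem it (hG : IsOpen G) {F : ℕ → C(closure G, ℂ)} (h : P F) (n : ℕ) :
    ∀ z ∈ G, iteratedDeriv n (ext G (F 0)) z = ext G (F n) z := by
  induction n with
  | zero => simp
  | succ n ih =>
    intro z hz
    rw [iteratedDeriv_succ, EventuallyEq.deriv_eq (mem_of_superset (hG.mem_nhds hz) ih), (h n z hz).deriv]

theorem iffP (hG : IsOpen G) {F : ℕ → C(closure G, ℂ)} : (∃ f : ℂ → ℂ, DifferentiableOn ℂ f G ∧
    ∀ j z (hz : z ∈ G), F j ⟨z, subset_closure hz⟩ = iteratedDeriv j f z) ↔ P F := by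
  refine ⟨fun ⟨f, d, h⟩ j z hz => ?_, fun h => ⟨_, fun z hz => (h 0 z hz).differentiableAt.differentiableWithinAt,
    fun j z hz => (ext_eq _ _).symm.trans (it hG h j z hz).symm⟩⟩
  rw [ext_eq _ (subset_closure hz), h _ z hz, iteratedDeriv_succ]
  refine HasDerivAt.congr_of_eventuallyEq (DifferentiableAt.hasDerivAt ?_) (ev hG hz (h j))
  rw [iteratedDeriv_eq_iterate]
  exact ((d.analyticOnNhd hG).iterated_deriv j z hz).differentiableAt

theorem P.add {F H : ℕ → C(closure G, ℂ)} (a : P F) (b : P H) : P (F + H) := fun j z hz => by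
  simpa using (a j z hz).add (b j z hz)

theorem P.smul (c : ℂ) {F : ℕ → C(closure G, ℂ)} (a : P F) : P (c • F) := fun j z hz => by
  simpa using (a j z hz).const_smul c

/-- the space -/
def A (hG : IsOpen G) : Submodule ℂ (ℕ → C(closure G, ℂ)) where
  carrier := {F | ∃ f : ℂ → ℂ, DifferentiableOn ℂ f G ∧
    ∀ j z (hz : z ∈ G), F j ⟨z, subset_closure hz⟩ = iteratedDeriv j f z}
  add_mem' a b := (iffP hG).2 (((iffP hG).1 a).add ((iffP hG).1 b))
  zero_mem' := ⟨0, differentiableOn_const 0, by simp⟩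
  smul_mem' c _ a := (iffP hG).2 (((iffP hG).1 a).smul c)

instance : LocallyCompactSpace (closure G) := isClosed_closure.locallyCompactSpace

theorem closed (hG : IsOpen G) : IsClosed (A hG : Set (ℕ → C(closure G, ℂ))) := by
  refine isClosed_of_closure_subset fun F hF => (iffP hG).2 fun j z hz => ?_
  have := mem_closure_iff_nhdsWithin_neBot.1 hF
  have t : ∀ j, TendstoLocallyUniformlyOn (fun H : ℕ → C(closure G, ℂ) => ext G (H j)) (ext G (F j))
      (𝓝[A hG] F) G := fun j => by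
    refine (tendstoLocallyUniformlyOn_iff_tendstoLocallyUniformly_comp_coe.2 ?_).mono subset_closure
    convert ContinuousMap.tendsto_iff_tendstoLocallyUniformly.1
      (((continuous_apply j).tendsto F).mono_left (nhdsWithin_le_nhds (s := A hG))) using 1
    · ext H u
      exact ext_eq _ u.2
    ext u
    exact ext_eq _ u.2
  exact hasDerivAt_of_tendstoLocallyUniformlyOn hG (t (j + 1))
    (eventually_mem_nhdsWithin.mono fun H hH => (iffP hG).1 hH j) (fun u hu => (t j).tendsto_at hu) hz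

instance (hG : IsOpen G) : ContinuousAdd (A hG) := (inferInstance : IsTopologicalAddGroup (A hG)).toContinuousAdd

instance (hG : IsOpen G) : SecondCountableTopology (A hG) := IsInducing.subtypeVal.secondCountableTopology

instance (hG : IsOpen G) : BaireSpace (A hG) := by
  have : CompleteSpace (A hG) := (closed hG).completeSpace_coe
  have : IsCountablyGenerated (uniformity (A hG)) := comap.isCountablyGenerated _ _
  have : IsCompletelyPseudoMetrizableSpace (A hG) := inferInstance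
  infer_instance

/-- index set -/
abbrev J (G : Set ℂ) : Type := {p : ℕ × ℚ // denseSeq ℂ p.1 ∈ G ∧ ¬ball (denseSeq ℂ p.1) p.2 ⊆ closure G}

/-- germs extending to a disc -/
def S (hG : IsOpen G) (j : J G) : Submodule ℂ (A hG) where
  carrier := {F | ∃ Ψ, DifferentiableOn ℂ Ψ (ball (denseSeq ℂ j.1.1) j.1.2) ∧ Ψ =ᶠ[𝓝 (denseSeq ℂ j.1.1)] ext G (F.1 0)}
  add_mem' := fun ⟨Ψ, a, b⟩ ⟨Φ, c, d⟩ => ⟨Ψ + Φ, a.add c, by simpa using b.add d⟩
  zero_mem' := ⟨0, differentiableOn_const 0, by simp⟩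
  smul_mem' := fun c _ ⟨Ψ, a, b⟩ => ⟨c • Ψ, a.const_smul c, by simpa using b.const_smul c⟩

theorem key (hG : IsOpen G) (hr : interior (closure G) ⊆ G) (F : A hG) {T : Set ℂ} (o : IsOpen T)
    (c : IsPreconnected T) {Φ : ℂ → ℂ} (d : DifferentiableOn ℂ Φ T) {z : ℂ} (z1 : z ∈ T) (z2 : z ∈ G)
    (e : Φ =ᶠ[𝓝 z] ext G (F.1 0)) (n : ¬T ⊆ G) : ∃ j, F ∈ S hG j := by
  have oV : IsOpen (G ∩ {z | Φ =ᶠ[𝓝 z] ext G (F.1 0)}) := hG.inter isOpen_setOfPred_eventually_nhds
  obtain ⟨ζ, ⟨a, b⟩, k⟩ := not_subset.1 fun h =>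
    n ((c.subset_of_closure_inter_subset oV ⟨z, z1, z2, e⟩ h).trans inter_subset_left)
  have g : ζ ∉ G := fun g => k ⟨g, (AnalyticAt.frequently_eq_iff_eventually_eq (d.analyticAt (o.mem_nhds b))
    (DifferentiableOn.analyticAt (fun u hu => ((iffP hG).1 F.2 0 u hu).differentiableAt.differentiableWithinAt)
      (hG.mem_nhds g))).1 (frequently_nhdsWithin_iff.2 ((mem_closure_iff_frequently.1 a).mono fun u hu =>
        ⟨hu.2.self_of_nhds, fun h => k ((mem_singleton_iff.1 h) ▸ hu)⟩))⟩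
  obtain ⟨ε, ε0, hε⟩ := isOpen_iff.1 o ζ b
  obtain ⟨x, x1, x2⟩ := not_subset.1 fun h : ball ζ (ε / 4) ⊆ closure G =>
    g (hr (interior_maximal h isOpen_ball (mem_ball_self (by positivity))))
  obtain ⟨m, m1, m2, m3⟩ := (denseRange_denseSeq ℂ).exists_mem_open (isOpen_ball.inter oV)
    (mem_closure_iff.1 a _ isOpen_ball (mem_ball_self (show 0 < ε / 4 by positivity)))
  obtain ⟨r, r1, r2⟩ := exists_rat_btwn (show ε / 2 < 3 * ε / 4 by linarith)
  rw [mem_ball] at x1 m1
  refine ⟨⟨(m, r), m2, fun h => x2 (h ?_)⟩, Φ, d.mono ((ball_subset_ball' ?_).trans hε), m3⟩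
  · exact (dist_triangle_right _ _ ζ).trans_lt (by linarith)
  linarith

theorem pole (hG : IsOpen G) {a : ℂ} (ha : a ∉ closure G) :
    ∃ u : A hG, ∀ n z, ‖u.1 n z‖ = n.factorial / dist a z ^ (n + 1) := by
  have z0 : ∀ z ∈ closure G, z - a ≠ 0 := fun z hz h => ha (sub_eq_zero.1 h ▸ hz)
  let u : ℕ → C(closure G, ℂ) := fun n => ⟨fun z => (-1) ^ n * n.factorial * (z - a)⁻¹ ^ (n + 1),
    continuous_const.mul (((continuous_subtype_val.sub continuous_const).inv₀ fun z => z0 _ z.2).pow _)⟩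
  refine ⟨⟨u, (iffP hG).2 fun n z hz => ?_⟩, fun n z => by simp [u, dist_eq_norm', div_eq_mul_inv]⟩
  refine HasDerivAt.congr_of_eventuallyEq ?_ (ev hG hz (f := fun z =>
    (-1) ^ n * n.factorial * (z - a)⁻¹ ^ (n + 1)) fun _ _ => rfl)
  refine (((((hasDerivAt_id z).sub_const a).inv (z0 z (subset_closure hz))).pow (n + 1)).const_mul
    ((-1) ^ n * n.factorial : ℂ)).congr_deriv ?_
  have := z0 z (subset_closure hz)
  simp [ext_eq _ (subset_closure hz), u, Nat.factorial_succ]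
  field_simp
  ring

theorem dens (hG : IsOpen G) {a : ℂ} (ha : a ∉ closure G) (w : closure G) {ρ : ℝ} (hρ : dist a w < ρ) (m : ℝ) :
    Dense (⋃ n : ℕ, {F : A hG | n.factorial * m / ρ ^ n < ‖F.1 n w‖}) := fun F => by
  obtain ⟨u, hu⟩ := pole hG ha
  have c : Continuous fun t : ℂ => F + t • u := continuous_const.add (continuous_id.smul continuous_const)
  refine by_contra fun k => k (mem_closure_of_tendsto (b := 𝓝[≠] (0 : ℂ))
    ((c.tendsto' _ _ (by simp)).mono_left nhdsWithin_le_nhds)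
      (eventually_mem_nhdsWithin.mono fun t ht => by_contra fun l => ?_))
  replace k := mt (subset_closure ·) k
  simp only [mem_iUnion, not_exists, mem_ofPred_eq, not_lt] at k l
  have D : 0 < dist a w := dist_pos.2 fun h => ha (h ▸ w.2)
  have t0 : 0 < ‖t‖ := norm_pos_iff.2 ht
  obtain ⟨n, hn⟩ := pow_unbounded_of_one_lt (2 * m * dist a w / ‖t‖) ((one_lt_div D).2 hρ)
  have h := norm_sub_le_of_le (l n) (k n)
  rw [show (F + t • u).1 n w = F.1 n w + t • u.1 n w from rfl, add_sub_cancel_left, norm_smul, hu] at h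
  have r := D.trans hρ
  have : (0 : ℝ) < n.factorial := by positivity
  rw [div_pow] at hn
  field_simp at hn h
  rw [pow_succ] at h
  linarith

theorem gen (hG : IsOpen G) : ∃ g : A hG, ∀ j, g ∉ S hG j := by
  choose a a1 a2 using fun j : J G => not_subset.1 j.2.2
  choose ρ ρ1 ρ2 using fun j => exists_between (mem_ball.1 (a1 j))
  have ρ0 := fun j => dist_nonneg.trans_lt (ρ1 j)
  obtain ⟨g, hg⟩ := (dense_iInter_of_isOpen (fun p => isOpen_iUnion fun n => isOpen_lt continuous_const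
    ((continuous_eval_const _).comp ((continuous_apply n).comp continuous_subtype_val)).norm)
      fun p : J G × ℕ => dens hG (a2 p.1) ⟨_, subset_closure p.1.2.1⟩ (ρ1 p.1) p.2).nonempty
  refine ⟨g, fun j ⟨Ψ, d, e⟩ => ?_⟩
  have D := d.diffContOnCl_ball (closedBall_subset_ball (ρ2 j))
  obtain ⟨C, hC⟩ := (isCompact_sphere _ (ρ j)).exists_bound_of_continuousOn
    (d.continuousOn.mono (sphere_subset_ball (ρ2 j)))
  obtain ⟨n, hn⟩ := mem_iUnion.1 (mem_iInter.1 hg (j, ⌈C⌉₊))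
  have := norm_iteratedDeriv_le_of_forall_mem_sphere_norm_le n (ρ0 j) D fun z hz => (hC z hz).trans (Nat.le_ceil C)
  rw [e.iteratedDeriv_eq, it hG ((iffP hG).1 g.2) n _ j.2.1, ext_eq _ (subset_closure j.2.1)] at this
  exact this.not_gt hn

/-- twisted shift -/
noncomputable def L (t : ℝ) (F : ℕ → C(closure G, ℂ)) : ℕ → C(closure G, ℂ) := (fun n => F (n + 1)) + (t : ℂ) • F

theorem PL (t : ℝ) {F : ℕ → C(closure G, ℂ)} (h : P F) (n : ℕ) : P ((L t)^[n] F) := by
  induction n with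
  | zero => exact h
  | succ n ih =>
    rw [Function.iterate_succ_apply']
    exact P.add (fun j => ih (j + 1)) (ih.smul _)

/-- exponentials -/
noncomputable def ex (G : Set ℂ) : C(ℝ, C(closure G, ℂ)) :=
  ContinuousMap.curry ⟨fun p => exp (p.1 * p.2), by fun_prop⟩

/-- the curve -/
noncomputable def y (hG : IsOpen G) (g : A hG) (t : ℝ) : A hG :=
  ⟨fun n => ex G t * (L t)^[n] g.1 0, (iffP hG).2 fun n z hz => by
    have e : ∀ (φ : C(closure G, ℂ)) z, ext G (ex G t * φ) z = exp (t * z) * ext G φ z := fun φ z => by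
      by_cases h : z ∈ closure G <;> simp [ext, h, ex]
    simp only [funext (e _), Function.iterate_succ_apply']
    refine ((((hasDerivAt_id z).const_mul (t : ℂ)).cexp).mul (PL t ((iffP hG).1 g.2) n 0 z hz)).congr_deriv ?_
    simp [L]
    ring⟩

theorem cy (hG : IsOpen G) (g : A hG) : Continuous (y hG g) := by
  have : ∀ n, Continuous fun t => (L t)^[n] g.1 := fun n => by
    induction n with
    | zero => exact continuous_const
    | succ n ih =>
      simp only [Function.iterate_succ_apply']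
      exact (continuous_pi fun j => (continuous_apply _).comp ih).add (continuous_ofReal.smul ih)
  exact Continuous.subtype_mk (continuous_pi fun n => (ex G).2.mul ((continuous_apply 0).comp (this n))) _

theorem li (hG : IsOpen G) (hr : interior (closure G) ⊆ G) {g : A hG} (hg : ∀ j, g ∉ S hG j) (j : J G)
    (s : Finset ℝ) (c : ℝ → ℂ) (h : ∑ t ∈ s, c t • y hG g t ∈ S hG j) (i : ℝ) (hi : i ∈ s) : c i = 0 := by
  by_contra k
  obtain ⟨Ψ, d, e⟩ := h
  let η : ℂ → ℂ := fun z => ∑ t ∈ s, c t * exp (t * z)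
  have a : AnalyticOnNhd ℂ η univ := fun z _ => Differentiable.analyticAt (by fun_prop) z
  obtain ⟨x, hx⟩ : ∃ x, η x ≠ 0 := by
    by_contra! n
    refine k (linearIndependent_iff'.1 ((linearIndependent_monoidHom (Multiplicative ℂ) ℂ).comp
      (fun t : ℝ => ⟨⟨fun z => exp (t * z.toAdd), by simp⟩, by simp [mul_add, exp_add]⟩) fun p q h => ?_) s c
        (funext fun z => by simpa [η] using n z.toAdd) i hi)
    simpa [← ofReal_exp] using DFunLike.congr_fun h (.ofAdd 1)
  have Z : (η ⁻¹' {0}).Countable := (HereditarilyLindelofSpace.isLindelof _).countable_of_isDiscrete 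
    ((isDiscrete_of_codiscreteWithin (a.preimage_zero_mem_codiscrete hx)).mono fun _ h => ⟨h, trivial⟩)
  have o : IsOpen (η ⁻¹' {0})ᶜ := (isClosed_singleton.preimage (by fun_prop)).isOpen_compl
  obtain ⟨b, b1, b2⟩ := not_subset.1 j.2.2
  have r := dist_nonneg.trans_lt (mem_ball.1 b1)
  obtain ⟨z, ⟨z1, z2, z3⟩, z4⟩ := (Z.dense_compl ℂ).inter_open_nonempty _ (isOpen_ball.inter (hG.inter
    isOpen_setOfPred_eventually_nhds)) ⟨_, mem_ball_self r, j.2.1, e⟩
  obtain ⟨w, ⟨w1, w2⟩, w3⟩ := (Z.dense_compl ℂ).inter_open_nonempty _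
    (isOpen_ball.inter isClosed_closure.isOpen_compl) ⟨b, b1, b2⟩
  let φ := OpenPartialHomeomorph.univBall (E := ℂ) (denseSeq ℂ j.1.1) (j.1.2 : ℝ)
  refine (key hG hr g (isOpen_ball.inter o) ?_ (Φ := Ψ / η) ((d.mono inter_subset_left).div (by fun_prop) fun _ h => h.2)
    ⟨z1, z4⟩ z2 ?_ fun h => w2 (subset_closure (h ⟨w1, w3⟩))).elim hg
  · convert ((Z.preimage_of_injOn (f := φ) (φ.injOn.mono (by simp [φ]))).isConnected_compl_of_one_lt_rank
      (by simp)).isPreconnected.image φ (OpenPartialHomeomorph.continuous_univBall _ _).continuousOn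
    rw [← preimage_compl (f := φ), image_preimage_eq_inter_range, inter_comm, ← image_univ,
      ← show φ.source = univ by simp [φ], φ.image_source_eq_target, OpenPartialHomeomorph.univBall_target _ r]
  filter_upwards [z3, o.mem_nhds z4, hG.mem_nhds z2] with u u1 u2 u3
  rw [Pi.div_apply, div_eq_iff u2, u1]
  simp [ext_eq _ (subset_closure u3), y, η, ex, Finset.sum_mul, mul_comm (g.1 0 _), mul_assoc]

theorem main (hG : IsOpen G) (hr : interior (closure G) ⊆ G) (hn : G.Nonempty) : ∃ E : Submodule ℂ (A hG),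
    Dense (E : Set (A hG)) ∧ BaireSpace E ∧ ∀ F ∈ E, F ≠ 0 → ¬∃ (Ω : Set ℂ) (Φ : ℂ → ℂ), IsOpen Ω ∧ IsConnected Ω ∧
      G ⊂ Ω ∧ DifferentiableOn ℂ Φ Ω ∧ ∀ z (hz : z ∈ G), Φ z = F.1 0 ⟨z, subset_closure hz⟩ := by
  obtain ⟨g, hg⟩ := gen hG
  obtain ⟨E, a, b⟩ := exE (X := A hG) (S hG) (cy hG g) (li hG hr hg)
  obtain ⟨z, hz⟩ := hn
  refine ⟨E, (baire (X := A hG) (E := E) b).1, (baire (X := A hG) (E := E) b).2,
    fun F hF k ⟨Ω, Φ, o, c, s, d, e⟩ => ?_⟩
  obtain ⟨j, hj⟩ := key hG hr F o c.2 d (s.1 hz) hz (ev hG hz fun z hz => (e z hz).symm).symm s.2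
  exact k (disjoint_def.1 (a j) F hF hj)

end Pool.Agent.H.MP_2e37b9_an
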